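import Pool.Agent.T9h90.SP.Spec

set_option autoImplicit false

/-! (AD) `RT^2_2(p)` implies `ADS`. -/

namespace Pool.Agent.T9h67.SP

open Pool.Agent.Helper617.RM Pool.Agent.T9h90.SP

universe u

theorem size_pos (p : Sep) : 0 < p.size := by
  induction p with
  | one => exact Nat.one_pos
  | node c a b ha hb => exact Nat.add_pos_left ha _

theorem exists_largest {M : Type u} {D : Set M} {E : M → M → Prop}
    (refl : ∀ x ∈ D, E x x) (trans : ∀ x y z, E x y → E y z → E x z)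
    (total : ∀ x ∈ D, ∀ y ∈ D, E x y ∨ E y x) (x : ℕ → M) (n : ℕ)
    (hx : ∀ i, i < n + 1 → x i ∈ D) : ∃ i, i < n + 1 ∧ ∀ j, j < n + 1 → E (x i) (x j) := by
  induction n with
  | zero =>
    refine ⟨0, Nat.one_pos, fun j hj => ?_⟩
    obtain rfl : j = 0 := by omega
    exact refl _ (hx 0 Nat.one_pos)
  | succ n ih =>
    obtain ⟨i, hi, h⟩ := ih (fun i hi => hx i (by omega))
    rcases total (x i) (hx i (by omega)) (x (n+1)) (hx (n+1) (by omega)) with h1 | h1
    · refine ⟨i, by omega, fun j hj => ?_⟩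
      rcases Nat.lt_succ_iff_lt_or_eq.1 hj with hj' | rfl
      · exact h j hj'
      · exact h1
    · refine ⟨n+1, by omega, fun j hj => ?_⟩
      rcases Nat.lt_succ_iff_lt_or_eq.1 hj with hj' | rfl
      · exact trans _ _ _ h1 (h j hj')
      · exact refl _ (hx _ (by omega))

theorem exists_bd {M : Type u} [LinearOrder M] (x : ℕ → M) (n : ℕ) :
    ∃ m, ∀ i, i < n → x i ≤ m := by
  induction n with
  | zero => exact ⟨x 0, fun i hi => by omega⟩
  | succ n ih =>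
    obtain ⟨m, hm⟩ := ih
    refine ⟨max m (x n), fun i hi => ?_⟩
    rcases Nat.lt_succ_iff_lt_or_eq.1 hi with h | rfl
    · exact (hm i h).trans (le_max_left _ _)
    · exact le_max_right _ _

theorem mono_seq (N : L2Structure.{u}) [IsModelRCA0 N]
    (E : N.M → N.M → Prop) (hE : D0 (fun v => E (v 0) (v 1)))
    (antisymm : ∀ x y, E x y → E y x → x = y)
    (trans : ∀ x y z, E x y → E y z → E x z) (g : N.M → N.M)
    (hg : D0 (fun v => v 1 = g (v 0))) (hs : ∀ n, E (g n) (g (n + 1)) ∧ g (n + 1) ≠ g n)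
    (i j : N.M) (hij : i < j) : E (g i) (g j) ∧ g i ≠ g j := by
  obtain ⟨k, rfl⟩ := (lt_iff_add'' i j).1 hij
  clear hij
  refine ind_S1 (P := fun k => E (g i) (g (i + k + 1)) ∧ g i ≠ g (i + k + 1)) ?_ ?_ ?_ k
  · refine S1.congr (R := fun v => ∃ z, z = g (i + v 0 + 1) ∧ (E (g i) z ∧ ¬ g i = z)) ?_
      (fun v => by simp)
    refine S1.ex (S1.and ?_ ?_)
    · exact (D0.rel (R := fun k x => x = g k) hg (((Tm.const i).add (Tm.var 1)).add Tm.one)
        (Tm.var 0)).S1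
    · exact ((hE.rel (Tm.const (g i)) (Tm.var 0)).and
        (D0.eq (Tm.const (g i)) (Tm.var 0)).not).S1
  · have h := hs i
    simp only [add_zero]
    exact ⟨h.1, h.2.symm⟩
  · intro k ⟨h1, h2⟩
    have h := hs (i + k + 1)
    have e : i + (k + 1) + 1 = i + k + 1 + 1 := by rw [← add_assoc]
    rw [e]
    refine ⟨trans _ _ _ h1 h.1, fun h3 => h.2 ?_⟩
    rw [h3] at h1
    exact antisymm _ _ h1 h.1

theorem step (hCP : S_CP.{u}) (hNC : S_NC.{u}) (hCS : S_CS.{u}) (hSQ : S_SQ.{u})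
    (N : L2Structure.{u}) [IsModelRCA0 N]
    (f : N.M → N.M → Bool) (hf : DF N f) (c : Bool) (D : Set N.M)
    (E : N.M → N.M → Prop) (hE : D0 (fun v => E (v 0) (v 1)))
    (refl : ∀ x ∈ D, E x x) (antisymm : ∀ x y, E x y → E y x → x = y)
    (trans : ∀ x y z, E x y → E y z → E x z)
    (total : ∀ x ∈ D, ∀ y ∈ D, E x y ∨ E y x)
    (hfE : ∀ x ∈ D, ∀ y ∈ D, x < y → E y x → f x y = c) (a b : Sep)
    (iha : ∀ H ∈ N.Sets, H ⊆ D → Unb H → ∃ x, Copy f H a x)
    (ihb : ∀ H ∈ N.Sets, H ⊆ D → Unb H → ∃ x, Copy f H b x)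
    (hno : ¬ ∃ g : N.M → N.M, FunIn N g ∧ (∀ i, g i ∈ D) ∧
      ∀ i j, i < j → E (g i) (g j) ∧ g i ≠ g j)
    (H : Set N.M) (hH : H ∈ N.Sets) (hHD : H ⊆ D) (hu : Unb H) :
    ∃ x, Copy f H (.node c a b) x := by
  by_contra hcop
  let K : N.M → Prop := fun u => ∃ x, Copy f {y | y ∈ H} a x ∧ (∃ i, i < a.size ∧ x i = u) ∧
    ∀ j, j < a.size → E u (x j)
  have hK : S1 (fun v : Ctx N => K (v 0)) :=
    (hCS N f hf a (fun _ y => y ∈ H) (fun u y => E u y) (D0.mem (Tm.var 1) hH) hE).2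
  have hmk : ∀ H' ⊆ H, H' ∈ N.Sets → Unb H' → ∃ u ∈ H', K u := by
    intro H' hH' hS hU
    obtain ⟨x, hx⟩ := iha H' hS (hH'.trans hHD) hU
    obtain ⟨n, hn⟩ : ∃ n, a.size = n + 1 := ⟨a.size - 1, by have := size_pos a; omega⟩
    obtain ⟨i, hi, hij⟩ := exists_largest refl trans total x n
      (fun i hi => hHD (hH' (hx.1 i (by omega))))
    exact ⟨x i, hx.1 i (by omega), x, ⟨fun i hi => hH' (hx.1 i hi), hx.2⟩, ⟨i, by omega, rfl⟩,
      fun j hj => hij j (by omega)⟩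
  have hstep : ∀ u, K u → ∃ u', K u' ∧ (E u u' ∧ ¬ u' = u) := by
    rintro u ⟨x, hx, ⟨i0, hi0, hxi⟩, hlarge⟩
    have hW : ¬ Unb (Nc f c H a.size x) := by
      intro hW
      obtain ⟨y, hy⟩ := ihb _ (hNC N f hf c H hH _ _) (fun w hw => hHD hw.1) hW
      exact hcop ⟨_, (hCP N.M f H c a b).1 x y hx hy⟩
    obtain ⟨B, hB⟩ : ∃ B, ∀ y ∈ Nc f c H a.size x, ¬ B < y := by
      by_contra h
      apply hW
      intro b'
      by_contra h'
      exact h ⟨b', fun y hy hlt => h' ⟨y, hy, hlt⟩⟩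
    obtain ⟨m, hm⟩ := exists_bd x a.size
    have hbd : ∀ y ∈ H, max B m < y → ¬ E y u := by
      intro y hy hlt hEy
      have hxy : ∀ i, i < a.size → x i < y := fun i hi =>
        lt_of_le_of_lt (hm i hi) (lt_of_le_of_lt (le_max_right _ _) hlt)
      exact hB y ⟨hy, fun i hi => ⟨hxy i hi, hfE _ (hHD (hx.1 i hi)) y (hHD hy) (hxy i hi)
        (trans _ _ _ hEy (hlarge i hi))⟩⟩ (lt_of_le_of_lt (le_max_left _ _) hlt)
    have hH2 : {y | y ∈ H ∧ max B m < y} ∈ N.Sets :=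
      comp_D0 ((D0.mem (Tm.var 0) hH).and (D0.lt (Tm.const _) (Tm.var 0)))
    have hU2 : Unb {y | y ∈ H ∧ max B m < y} := by
      intro b'
      obtain ⟨y, hy, hby⟩ := hu (max b' (max B m))
      exact ⟨y, ⟨hy, lt_of_le_of_lt (le_max_right _ _) hby⟩,
        lt_of_le_of_lt (le_max_left _ _) hby⟩
    obtain ⟨u', hu', hKu'⟩ := hmk _ (fun y hy => hy.1) hH2 hU2
    have huD : u ∈ D := by rw [← hxi]; exact hHD (hx.1 i0 hi0)
    have hnE := hbd u' hu'.1 hu'.2
    refine ⟨u', hKu', (total u huD u' (hHD hu'.1)).resolve_right hnE, ?_⟩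
    rintro rfl
    exact hnE (refl _ huD)
  obtain ⟨u0, -, hu0⟩ := hmk H subset_rfl hH hu
  obtain ⟨g, hg, hgK⟩ := hSQ N K (fun u u' => E u u' ∧ ¬ u' = u) hK
    ((hE.and (D0.eq (Tm.var 1) (Tm.var 0)).not).S1) ⟨u0, hu0⟩ hstep
  refine hno ⟨g, relIn_iff.2 (codeRel_mem_D0 (R := fun x y => y = g x) hg), ?_, ?_⟩
  · intro i
    obtain ⟨x, hx, ⟨j, hj, hxj⟩, -⟩ := (hgK i).1
    rw [← hxj]
    exact hHD (hx.1 j hj)
  · exact mono_seq N E hE antisymm trans g hg (fun n => (hgK n).2)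

theorem ad : S_CP.{u} → S_NC.{u} → S_CS.{u} → S_SQ.{u} → S_TR.{u} → S_AD.{u} := by
  intro hCP hNC hCS hSQ hTR N _ p hRT D hD R hR hLin hInf
  by_contra hno
  classical
  have hR0 : D0 (fun v : Ctx N => R (v 0) (v 1)) := D0.of_codeRel (relIn_iff.1 hR)
  let f : N.M → N.M → Bool := fun x y => decide (R x y)
  have hf : DF N f := hR0.congr fun v => by simp [f]
  have hUnb : Unb D := by
    intro b
    obtain ⟨x, hx, hb⟩ := not_isFin_iff.1 hInf (b + 1)
    exact ⟨x, hx, add_one_le_iff'.1 hb⟩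
  have claim : ∀ q : Sep, ∀ H ∈ N.Sets, H ⊆ D → Unb H → ∃ x, Copy f H q x := by
    intro q
    induction q with
    | one =>
      intro H hH _ hu
      obtain ⟨y, hy, -⟩ := hu 0
      refine ⟨fun _ => y, fun _ _ => hy, fun i j hij hj => ?_⟩
      simp only [Sep.size] at hj
      omega
    | node c a b iha ihb =>
      intro H hH hHD hu
      cases c with
      | true =>
        refine step hCP hNC hCS hSQ N f hf true D (fun u y => R y u)
          (hR0.rel (Tm.var 1) (Tm.var 0)) hLin.refl (fun x y h1 h2 => hLin.antisymm x y h2 h1)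
          (fun x y z h1 h2 => hLin.trans z y x h2 h1) (fun x hx y hy => hLin.total y hy x hx)
          (fun x _ y _ _ h => by simpa [f] using h) a b iha ihb ?_ H hH hHD hu
        rintro ⟨g, h1, h2, h3⟩
        exact hno ⟨g, h1, h2, Or.inr h3⟩
      | false =>
        refine step hCP hNC hCS hSQ N f hf false D (fun u y => R u y)
          hR0 hLin.refl hLin.antisymm hLin.trans hLin.total
          (fun x _ y _ hxy h => ?_) a b iha ihb ?_ H hH hHD hu
        · have : ¬ R x y := fun h' => hxy.ne (hLin.antisymm x y h' h)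
          simpa [f] using this
        · rintro ⟨g, h1, h2, h3⟩
          exact hno ⟨g, h1, h2, Or.inl h3⟩
  obtain ⟨H', hH', hsub, hU', hn⟩ := hTR N p hRT f hf D hD hUnb
  exact hn (claim p H' hH' hsub hU')

end Pool.Agent.T9h67.SP
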